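import Pool.Agent.N549.HG.Stm
import Pool.Agent.N303.SH.F

/-!
# Hard caps on the sphere: definitions and statements (project HG, fourth round)

The sphere `S (c + 2)` of `ℝ^(c + 2)`, `t = cos θ`.
-/

set_option autoImplicit false

namespace Pool.Agent.N549.SG

open MeasureTheory Set Finset
open scoped ENNReal NNReal
open Pool.Agent.N303.SH (E S sg)

/-- The uniform probability on the sphere. -/
noncomputable def sig (n : ℕ) : Measure (S n) := (sg n univ)⁻¹ • sg n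

/-- The points at an angle less than `θ`, `t = cos θ`, from `x`. -/
def near (n : ℕ) (t : ℝ) (x : S n) : Set (S n) := {y | t < inner ℝ (x : E n) (y : E n)}

/-- The probability of a cap. -/
noncomputable def capVol (c : ℕ) (t : ℝ) : ℝ :=
  (sig (c + 2)).real {y : S (c + 2) | t < (y : E (c + 2)) 0}

/-- The Gegenbauer polynomials of the sphere `S (c + 2)`, normalised by the value `1` at `1`. -/
noncomputable def G (c : ℕ) : ℕ → ℝ → ℝ
  | 0, _ => 1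
  | 1, t => t
  | k + 2, t => ((2 * (k + 1) + c) * t * G c (k + 1) t - (k + 1) * G c k t) / (k + 1 + c)

/-- The integral of a Gegenbauer polynomial over a cap. -/
noncomputable def capL (c : ℕ) (t : ℝ) (k : ℕ) : ℝ :=
  ∫ y in {y : S (c + 2) | t < (y : E (c + 2)) 0}, G c k ((y : E (c + 2)) 0) ∂(sig (c + 2))

/-- SG/SPEC: supersaturation from the eigenvalues -/
def S_SPEC : Prop := ∀ (c : ℕ) (t κ : ℝ), 1 ≤ c → 0 < t → t < 1 → 0 ≤ κ →
  (∀ k, 1 ≤ k → -(κ * capVol c t) ≤ capL c t k) →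
  ∀ f : S (c + 2) → ℝ, Measurable f → (∀ x, 0 ≤ f x ∧ f x ≤ 1) →
    capVol c t * ((∫ x, f x ∂(sig (c + 2))) ^ 2 - κ * ∫ x, f x ∂(sig (c + 2))) ≤
      ∫ x, f x * ∫ y in near (c + 2) t x, f y ∂(sig (c + 2)) ∂(sig (c + 2))

/-- SG/REC: the recurrence of the eigenvalues -/
def S_REC : Prop := ∀ (c : ℕ) (t : ℝ), 1 ≤ c → 0 < t → t < 1 →
  (0 ≤ capL c t 1 ∧ capL c t 1 ≤ capVol c t) ∧
  ∀ k : ℕ, 1 ≤ k → ((k : ℝ) + c + 1) * capL c t (k + 1) =
    (2 * k + c) * t * capL c t k - (k - 1) * capL c t (k - 1)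

/-- SG/PB: the eigenvalues are not very negative -/
def S_PB : Prop := ∀ (N x s μ₀ τ : ℝ) (P : ℕ → ℝ), 1 ≤ N → 0 < x → x < 1 → s = Real.sqrt (1 - x ^ 2) →
  μ₀ = (1 / s - 1) / 2 → τ = (1 - x ^ 2) / x ^ 2 → P 0 = 1 → P 1 = x →
  (∀ m : ℕ, 1 ≤ m → ((m : ℝ) + N) * P (m + 1) = (2 * m + N) * x * P m - m * P (m - 1)) →
  ∀ m, -(Real.exp (2 * τ) / (x * s) *
    Real.exp (-(μ₀ * Real.log (1 / x) + τ * (μ₀ - Real.log (1 + μ₀))) * N)) ≤ P m

/-- SG/CAPR: the ratio of two caps -/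
def S_CAPR : Prop := ∀ (c : ℕ) (t t' : ℝ), 0 < t → t ≤ t' → t' < 1 → 0 < capVol c t ∧
  capVol c t' ≤ Real.sqrt ((1 - t' ^ 2) / (1 - t ^ 2)) ^ (c + 1) / (t * t') * capVol c t

/-- SG/LOCS: few near pairs in a subset of a cap -/
def S_LOCS : Prop := ∀ (c : ℕ) (t : ℝ), 0 < t → t < 1 → ∀ (v : S (c + 2)) (T : Set (S (c + 2))),
  MeasurableSet T → T ⊆ near (c + 2) t v →
  ∫⁻ u in T, sig (c + 2) (T ∩ near (c + 2) t u) ∂(sig (c + 2)) ≤
    ENNReal.ofReal (2 * capVol c (t / Real.sqrt ((1 + t) / 2))) * sig (c + 2) T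

/-- SG/ROT: rotations -/
def S_ROT : Prop := ∀ (c : ℕ),
  (∀ x y : S (c + 2), ∃ T : S (c + 2) ≃ᵐ S (c + 2), MeasurePreserving T (sig (c + 2)) (sig (c + 2)) ∧
    T x = y ∧ ∀ u v, inner ℝ (T u : E (c + 2)) (T v : E (c + 2)) = inner ℝ (u : E (c + 2)) (v : E (c + 2))) ∧
  IsProbabilityMeasure (sig (c + 2)) ∧
  ∀ (t : ℝ) (x : S (c + 2)), sig (c + 2) (near (c + 2) t x) = ENNReal.ofReal (capVol c t)

end Pool.Agent.N549.SG
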