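import Pool.Agent.N549.SG.Stm
import Pool.Agent.N549.AB.Abs2
import Pool.Agent.N364.HG.Conf

/-!
# Hard caps on the sphere: the gas (project HG, fourth round)
-/

set_option autoImplicit false

namespace Pool.Agent.N549.SG

open MeasureTheory Set Finset
open scoped ENNReal NNReal
open Pool.Agent.N303.SH (E S sg)
open Pool.Agent.N549.AB (Gas SupK LocK Nr pr)
open Pool.Agent.N549.HG (A Z Adm)

/-- The weight of a pair of points of the sphere: `0` if the angle is less than `θ`. -/
noncomputable def capF (n : ℕ) (t : ℝ) (x y : S n) : ℝ≥0∞ :=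
  if t < inner ℝ (x : E n) (y : E n) then 0 else 1

theorem cont_inner (n : ℕ) : Continuous fun p : S n × S n => inner ℝ (p.1 : E n) (p.2 : E n) :=
  (continuous_subtype_val.comp continuous_fst).inner (continuous_subtype_val.comp continuous_snd)

theorem capF_meas (n : ℕ) (t : ℝ) : Measurable (Function.uncurry (capF n t)) :=
  Measurable.ite (measurableSet_lt measurable_const (cont_inner n).measurable)
    measurable_const measurable_const

theorem capF_symm {n : ℕ} {t : ℝ} (x y : S n) : capF n t x y = capF n t y x := by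
  unfold capF
  rw [real_inner_comm]

theorem capF_adm (n : ℕ) (t : ℝ) : Adm (capF n t) where
  meas := capF_meas n t
  symm := capF_symm
  le_one := fun x y => by unfold capF; split_ifs <;> simp

theorem Nr_capF (n : ℕ) (t : ℝ) (x : S n) : Nr (capF n t) x = near n t x := by
  ext y
  show capF n t x y = 0 ↔ t < inner ℝ (x : E n) (y : E n)
  unfold capF
  split_ifs with h <;> simp [h]

/-! ### Invariance -/

theorem A_equiv {Ω : Type} [MeasurableSpace Ω] {μ : Measure Ω} {F : Ω → Ω → ℝ≥0∞}
    (T : Ω ≃ᵐ Ω) (hT : MeasurePreserving T μ μ) (hF : ∀ x y, F (T x) (T y) = F x y) (k : ℕ)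
    (φ : Ω → ℝ≥0∞) : A μ F k (fun y => φ (T y)) = A μ F k φ := by
  induction k generalizing φ with
  | zero => rfl
  | succ k ih =>
    simp only [A]
    have h1 : ∫⁻ u, φ u * A μ F k (fun y => φ y * F u y) ∂μ =
        ∫⁻ u, φ (T u) * A μ F k (fun y => φ y * F (T u) y) ∂μ :=
      (hT.lintegral_comp_emb T.measurableEmbedding _).symm
    rw [h1]
    refine lintegral_congr fun u => ?_
    rw [← ih (fun y => φ y * F (T u) y)]
    simp only [hF]

theorem Z_equiv {Ω : Type} [MeasurableSpace Ω] {μ : Measure Ω} {F : Ω → Ω → ℝ≥0∞}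
    (T : Ω ≃ᵐ Ω) (hT : MeasurePreserving T μ μ) (hF : ∀ x y, F (T x) (T y) = F x y)
    (φ : Ω → ℝ≥0∞) : Z μ F (fun y => φ (T y)) = Z μ F φ := by
  unfold Z
  exact tsum_congr fun k => by rw [A_equiv T hT hF]

/-- The gas of hard caps. -/
theorem gasS (hR : S_ROT) (c : ℕ) (t : ℝ) (hpos : 0 < capVol c t) :
    Gas (sig (c + 2)) (capF (c + 2) t) (capVol c t) where
  adm := capF_adm _ _
  zo := fun x y => by unfold capF; split_ifs <;> simp
  pos := hpos
  vol := fun u => by rw [Nr_capF]; exact (hR c).2.2 t u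
  hom := by
    intro a u v
    obtain ⟨T, hT, hTu, hTi⟩ := (hR c).1 u v
    have hF : ∀ x y, capF (c + 2) t (T x) (T y) = capF (c + 2) t x y := fun x y => by
      unfold capF; rw [hTi]
    rw [← Z_equiv T hT hF (fun y => a * capF (c + 2) t v y)]
    congr 1
    funext y
    rw [← hTu, hF]

/-- Supersaturation for the hard caps. -/
theorem supS (hS : S_SPEC) (c : ℕ) (t κ : ℝ) (hc : 1 ≤ c) (ht : 0 < t) (ht1 : t < 1)
    (hκ : 0 ≤ κ) (h : ∀ k, 1 ≤ k → -(κ * capVol c t) ≤ capL c t k) :
    SupK (sig (c + 2)) (capF (c + 2) t) (capVol c t) κ := by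
  intro f hf h01
  have := hS c t κ hc ht ht1 hκ h f hf h01
  simp only [Nr_capF]
  exact this

/-- Few near pairs. -/
theorem locS (hL : S_LOCS) (c : ℕ) (t : ℝ) (ht : 0 < t) (ht1 : t < 1) (hpos : 0 < capVol c t) :
    LocK (sig (c + 2)) (capF (c + 2) t)
      (2 * capVol c (t / Real.sqrt ((1 + t) / 2)) / capVol c t) (capVol c t) := by
  intro v T hT hTv
  rw [Nr_capF] at hTv
  have h := hL c t ht ht1 v T hT hTv
  simp only [Nr_capF]
  rw [div_mul_cancel₀ _ hpos.ne']
  exact h

/-! ### The eigenvalues -/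

/-- the sequence of the recurrence -/
noncomputable def Pseq (c : ℕ) (t : ℝ) : ℕ → ℝ
  | 0 => 1
  | 1 => t
  | m + 2 => ((2 * ((m : ℝ) + 1) + (c + 2)) * t * Pseq c t (m + 1) - (m + 1) * Pseq c t m) /
      (m + 1 + (c + 2))

theorem Pseq_rec (c : ℕ) (t : ℝ) (m : ℕ) (hm : 1 ≤ m) :
    ((m : ℝ) + ((c : ℝ) + 2)) * Pseq c t (m + 1) =
      (2 * m + ((c : ℝ) + 2)) * t * Pseq c t m - m * Pseq c t (m - 1) := by
  obtain ⟨m, rfl⟩ := Nat.exists_eq_add_of_le' hm
  rw [Nat.add_sub_cancel]
  show ((m + 1 : ℕ) + ((c : ℝ) + 2)) * Pseq c t (m + 2) = _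
  rw [Pseq]
  push_cast
  rw [mul_div_cancel₀ _ (by positivity)]

theorem capL_eq (hr : S_REC) (c : ℕ) (t : ℝ) (hc : 1 ≤ c) (ht : 0 < t) (ht1 : t < 1) (m : ℕ) :
    capL c t (m + 1) = capL c t 1 * Pseq c t m := by
  obtain ⟨-, h⟩ := hr c t hc ht ht1
  induction m using Nat.strong_induction_on with
  | _ m ih =>
    rcases m with _ | m
    · rw [Pseq, mul_one]
    · rcases m with _ | m
      · have h1 := h 1 le_rfl
        norm_num at h1
        have h2 : (c : ℝ) + 2 ≠ 0 := by positivity
        have h3 : ((c : ℝ) + 2) * capL c t 2 = ((c : ℝ) + 2) * (capL c t 1 * t) := by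
          linarith
        exact mul_left_cancel₀ h2 h3
      · have h1 := h (m + 2) (by omega)
        have e1 := ih (m + 1) (by omega)
        have e2 := ih m (by omega)
        rw [show m + 2 - 1 = m + 1 by omega] at h1
        rw [show m + 2 = m + 1 + 1 by omega] at h1
        rw [e1, e2] at h1
        push_cast at h1
        have h2 : (m : ℝ) + 1 + 1 + c + 1 ≠ 0 := by positivity
        refine mul_left_cancel₀ h2 ?_
        rw [h1]
        have h3 := Pseq_rec c t (m + 1) (by omega)
        rw [Nat.add_sub_cancel] at h3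
        push_cast at h3
        linear_combination -(capL c t 1) * h3

/-- the constants of the spectral bound -/
noncomputable def mu0 (t : ℝ) : ℝ := (1 / Real.sqrt (1 - t ^ 2) - 1) / 2
noncomputable def tau (t : ℝ) : ℝ := (1 - t ^ 2) / t ^ 2

/-- The exponent of the spectral bound. -/
noncomputable def X1 (t : ℝ) : ℝ :=
  mu0 t * Real.log (1 / t) + tau t * (mu0 t - Real.log (1 + mu0 t))

/-- the constant of the supersaturation -/
noncomputable def kap (c : ℕ) (t : ℝ) : ℝ :=
  Real.exp (2 * tau t) / (t * Real.sqrt (1 - t ^ 2)) * Real.exp (-(X1 t * (c + 2)))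

theorem kap_pos (c : ℕ) (t : ℝ) (ht : 0 < t) (ht1 : t < 1) : 0 < kap c t := by
  unfold kap
  have : 0 < Real.sqrt (1 - t ^ 2) := Real.sqrt_pos.2 (by nlinarith)
  positivity

theorem capL_low (hr : S_REC) (hP : S_PB) (c : ℕ) (t : ℝ) (hc : 1 ≤ c) (ht : 0 < t) (ht1 : t < 1)
    (k : ℕ) (hk : 1 ≤ k) : -(kap c t * capVol c t) ≤ capL c t k := by
  obtain ⟨m, rfl⟩ := Nat.exists_eq_add_of_le' hk
  rw [capL_eq hr c t hc ht ht1]
  have h1 := hP ((c : ℝ) + 2) t (Real.sqrt (1 - t ^ 2)) (mu0 t) (tau t) (Pseq c t)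
    (by linarith [(Nat.cast_nonneg c : (0 : ℝ) ≤ c)]) ht ht1 rfl rfl rfl rfl rfl
    (Pseq_rec c t) m
  have e1 : Real.exp (2 * tau t) / (t * Real.sqrt (1 - t ^ 2)) *
      Real.exp (-(mu0 t * Real.log (1 / t) + tau t * (mu0 t - Real.log (1 + mu0 t))) *
        ((c : ℝ) + 2)) = kap c t := by
    unfold kap X1
    rw [neg_mul]
  rw [e1] at h1
  obtain ⟨⟨h2, h3⟩, -⟩ := hr c t hc ht ht1
  have h4 := kap_pos c t ht ht1
  have h5 := mul_le_mul_of_nonneg_left h1 h2
  have h6 := mul_le_mul_of_nonneg_left h3 h4.le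
  nlinarith

/-! ### Configurations -/

/-- The probability that `k` random points of the sphere have pairwise angles at least `θ`. -/
noncomputable def pc (n : ℕ) (t : ℝ) (k : ℕ) : ℝ :=
  (Measure.pi fun _ : Fin k => sig n).real
    {x | ∀ i j, i ≠ j → inner ℝ (x i : E n) (x j : E n) ≤ t}

open scoped Classical in
theorem Wk_capF (n : ℕ) (t : ℝ) (k : ℕ) (x : Fin k → S n) :
    Pool.Agent.N364.HG.Wk (capF n t) k x =
      if ∀ i j, i < j → inner ℝ (x i : E n) (x j : E n) ≤ t then 1 else 0 := by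
  induction k with
  | zero =>
    rw [if_pos fun i => i.elim0]
    rfl
  | succ k ih =>
    show (∏ j : Fin k, capF n t (x 0) (x j.succ)) *
      Pool.Agent.N364.HG.Wk (capF n t) k (fun j => x j.succ) = _
    rw [ih]
    by_cases h : ∀ i j, i < j → inner ℝ (x i : E n) (x j : E n) ≤ t
    · rw [if_pos h, if_pos fun i j hij => h _ _ (Fin.succ_lt_succ_iff.2 hij), mul_one]
      refine Finset.prod_eq_one fun j _ => ?_
      unfold capF
      rw [if_neg (not_lt.2 (h 0 j.succ (Fin.succ_pos j)))]
    · rw [if_neg h]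
      by_cases h2 : ∀ i j : Fin k, i < j → inner ℝ (x i.succ : E n) (x j.succ : E n) ≤ t
      · rw [if_pos h2, mul_one]
        have h3 : ∃ j : Fin k, ¬ inner ℝ (x 0 : E n) (x j.succ : E n) ≤ t := by
          by_contra hcon
          push Not at hcon
          refine h fun i j hij => ?_
          induction i using Fin.cases with
          | zero =>
            induction j using Fin.cases with
            | zero => exact absurd hij (lt_irrefl _)
            | succ j => exact hcon j
          | succ i =>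
            induction j using Fin.cases with
            | zero => exact absurd hij (Fin.not_lt_zero _)
            | succ j => exact h2 i j (Fin.succ_lt_succ_iff.1 hij)
        obtain ⟨j, hj⟩ := h3
        refine Finset.prod_eq_zero (Finset.mem_univ j) ?_
        unfold capF
        rw [if_pos (not_le.1 hj)]
      · rw [if_neg h2, mul_zero]

theorem pr_eq (n : ℕ) [IsProbabilityMeasure (sig n)] (t : ℝ) (k : ℕ) :
    pr (sig n) (capF n t) k = pc n t k := by
  classical
  unfold pr
  rw [Pool.Agent.N364.HG.A_eq (capF_meas n t) k _ measurable_const]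
  have hset : ({x | ∀ i j, i ≠ j → inner ℝ (x i : E n) (x j : E n) ≤ t} : Set (Fin k → S n)) =
      {x | ∀ i j, i < j → inner ℝ (x i : E n) (x j : E n) ≤ t} := by
    ext x
    simp only [mem_ofPred_eq]
    constructor
    · exact fun h i j hij => h i j hij.ne
    · intro h i j hij
      rcases lt_or_gt_of_ne hij with h' | h'
      · exact h i j h'
      · rw [real_inner_comm]
        exact h j i h'
  have h1 : ∀ x : Fin k → S n, (∏ _i : Fin k, (1 : ℝ≥0∞)) *
      Pool.Agent.N364.HG.Wk (capF n t) k x =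
      ({x | ∀ i j, i < j → inner ℝ (x i : E n) (x j : E n) ≤ t} : Set (Fin k → S n)).indicator
        1 x := by
    intro x
    rw [Finset.prod_const_one, one_mul, Wk_capF]
    rw [Set.indicator_apply]
    rfl
  have hms : MeasurableSet ({x | ∀ i j, i < j → inner ℝ (x i : E n) (x j : E n) ≤ t} :
      Set (Fin k → S n)) := by
    have h2 : ({x | ∀ i j, i < j → inner ℝ (x i : E n) (x j : E n) ≤ t} : Set (Fin k → S n)) =
        Pool.Agent.N364.HG.Wk (capF n t) k ⁻¹' {1} := by
      ext x
      rw [Set.mem_preimage, Wk_capF, Set.mem_singleton_iff]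
      split_ifs with h
      · exact ⟨fun _ => rfl, fun _ => h⟩
      · exact ⟨fun h' => absurd h' h, fun h' => absurd h' zero_ne_one⟩
    rw [h2]
    exact Pool.Agent.N364.HG.Wk_meas (capF_meas n t) k (measurableSet_singleton 1)
  rw [lintegral_congr h1, lintegral_indicator_one hms]
  unfold pc
  rw [measureReal_def, hset]

end Pool.Agent.N549.SG
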