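import Pool.Agent.N549.SG.Gas
import Pool.Agent.N549.AB.Abs3

/-!
# Hard caps on the sphere: the main theorem (project HG, fourth round)
-/

set_option autoImplicit false

namespace Pool.Agent.N549.SG

open MeasureTheory Set Finset
open scoped ENNReal NNReal
open Pool.Agent.N303.SH (E S sg)
open Pool.Agent.N549.AB (Gas SupK LocK Nr pr PZ PM ac)

/-- The cosine of the angular radius of the lens: two points at an angle less than `θ` from each
other and from a third point. -/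
noncomputable def tp (t : ℝ) : ℝ := t / Real.sqrt ((1 + t) / 2)

/-- The exponent of the local bound. -/
noncomputable def X2 (t : ℝ) : ℝ :=
  Real.log (Real.sqrt (1 - t ^ 2) / Real.sqrt (1 - tp t ^ 2))

theorem tp_bounds (t : ℝ) (ht : 0 < t) (ht1 : t < 1) : t ≤ tp t ∧ tp t < 1 ∧ 0 < tp t := by
  have h0 : 0 < (1 + t) / 2 := by linarith
  have hs : 0 < Real.sqrt ((1 + t) / 2) := Real.sqrt_pos.2 h0
  have hs1 : Real.sqrt ((1 + t) / 2) ≤ 1 := by
    rw [Real.sqrt_le_left (by norm_num)]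
    linarith
  refine ⟨?_, ?_, div_pos ht hs⟩
  · unfold tp
    rw [le_div_iff₀ hs]
    nlinarith
  · unfold tp
    rw [div_lt_one hs, Real.lt_sqrt ht.le]
    nlinarith

theorem sqrt_ratio (t : ℝ) (ht : 0 < t) (ht1 : t < 1) :
    Real.sqrt ((1 - tp t ^ 2) / (1 - t ^ 2)) = Real.exp (-X2 t) := by
  obtain ⟨h1, h2, h3⟩ := tp_bounds t ht ht1
  have a1 : 0 < 1 - tp t ^ 2 := by nlinarith
  have a2 : 0 < 1 - t ^ 2 := by nlinarith
  have b1 := Real.sqrt_pos.2 a1
  have b2 := Real.sqrt_pos.2 a2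
  unfold X2
  rw [Real.exp_neg, Real.exp_log (by positivity), inv_div, Real.sqrt_div a1.le]

/-- the volume of a cap is exponentially small -/
theorem capVol_small (hC : S_CAPR) (hR : S_ROT) (t : ℝ) (ht : 0 < t) (ht1 : t < 1) (ε : ℝ)
    (hε : 0 < ε) : ∃ c₀ : ℕ, ∀ c : ℕ, c₀ ≤ c → capVol c t ≤ ε := by
  set r : ℝ := Real.sqrt ((1 - t ^ 2) / (1 - (t / 2) ^ 2)) with hr
  have hr0 : 0 ≤ r := Real.sqrt_nonneg _
  have hr1 : r < 1 := by
    rw [hr, Real.sqrt_lt' one_pos, one_pow, div_lt_one (by nlinarith)]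
    nlinarith
  have hpos : 0 < ε * (t / 2 * t) := by positivity
  obtain ⟨c₀, hc₀⟩ := exists_pow_lt_of_lt_one hpos hr1
  refine ⟨c₀, fun c hc => ?_⟩
  have hprob : IsProbabilityMeasure (sig (c + 2)) := (hR c).2.1
  obtain ⟨h1, h2⟩ := hC c (t / 2) t (by linarith) (by linarith) ht1
  have h3 : capVol c (t / 2) ≤ 1 := measureReal_le_one
  have h4 : r ^ (c + 1) ≤ ε * (t / 2 * t) := by
    refine le_trans ?_ hc₀.le
    exact pow_le_pow_of_le_one hr0 hr1.le (by omega)
  calc capVol c t ≤ r ^ (c + 1) / (t / 2 * t) * capVol c (t / 2) := h2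
    _ ≤ r ^ (c + 1) / (t / 2 * t) * 1 := mul_le_mul_of_nonneg_left h3 (by positivity)
    _ ≤ ε := by
        rw [mul_one, div_le_iff₀ (by positivity)]
        exact h4

/-- The size of the window. -/
noncomputable def Xt (t : ℝ) : ℝ := min (X1 t) (X2 t)

/-- The partition function of the hard caps. -/
noncomputable def PC (n : ℕ) (t lam : ℝ) : ℝ := ∑' k : ℕ, lam ^ k / k.factorial * pc n t k

/-- The mean number of points of a random configuration. -/
noncomputable def MC (n : ℕ) (t lam : ℝ) : ℝ :=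
  (∑' k : ℕ, k * (lam ^ k / k.factorial * pc n t k)) / PC n t lam

theorem main (hS : S_SPEC) (hRec : S_REC) (hP : S_PB) (hC : S_CAPR) (hL : S_LOCS) (hR : S_ROT)
    (t ε : ℝ) (ht : 0 < t) (ht1 : t < 1) (hε : 0 < ε) : ∃ c₀ : ℕ, ∀ c : ℕ, c₀ ≤ c →
    0 < capVol c t ∧ capVol c t ≤ ε ∧
    (∀ s : ℝ, 0 < s → s ≤ (Xt t - ε) * ((c : ℝ) + 2) →
      |capVol c t * MC (c + 2) t (s * Real.exp s / capVol c t) - s| ≤ ε * s ∧
      |capVol c t * Real.log (PC (c + 2) t (s * Real.exp s / capVol c t)) - (s + s ^ 2 / 2)| ≤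
        ε * (s + s ^ 2 / 2)) ∧
    ∀ k : ℕ, ε ≤ k * capVol c t → k * capVol c t ≤ (Xt t - ε) * ((c : ℝ) + 2) →
      0 < pc (c + 2) t k ∧
      |Real.log (pc (c + 2) t k) + k ^ 2 * capVol c t / 2| ≤ ε * (k ^ 2 * capVol c t) := by
  obtain ⟨N₀, D₀, hD₀, huni⟩ := Pool.Agent.N549.AB.uniform (Xt t) ε hε
  obtain ⟨c₁, hc₁⟩ := capVol_small hC hR t ht ht1 (min ε D₀) (lt_min hε hD₀)
  obtain ⟨b1, b2, b3⟩ := tp_bounds t ht ht1
  have hsq : 0 < Real.sqrt (1 - t ^ 2) := Real.sqrt_pos.2 (by nlinarith)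
  -- the constants
  obtain ⟨N₁, hN₁, hd1⟩ := Pool.Agent.N549.AB.decay 0 (ε / 4)
    (t * Real.sqrt (1 - t ^ 2) / Real.exp (2 * tau t)) (by positivity) (by positivity)
  obtain ⟨N₂, hN₂, hd2⟩ := Pool.Agent.N549.AB.decay 0 (ε / 4)
    (t * tp t / (2 * Real.exp (X2 t))) (by positivity) (by positivity)
  simp only [abs_zero, zero_mul, add_zero, one_mul] at hd1 hd2
  obtain ⟨c₂, hc₂⟩ := exists_nat_ge (max N₀ (max N₁ N₂))
  refine ⟨max (max c₁ c₂) 1, fun c hc => ?_⟩
  have hcc₁ : c₁ ≤ c := ((le_max_left _ _).trans (le_max_left _ _)).trans hc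
  have hcc₂ : c₂ ≤ c := ((le_max_right _ _).trans (le_max_left _ _)).trans hc
  have hc1 : 1 ≤ c := (le_max_right _ _).trans hc
  have hcN : max N₀ (max N₁ N₂) ≤ (c : ℝ) + 2 := by
    have : (c₂ : ℝ) ≤ c := by exact_mod_cast hcc₂
    linarith
  have hprob : IsProbabilityMeasure (sig (c + 2)) := (hR c).2.1
  have hsm := hc₁ c hcc₁
  obtain ⟨hpos, -⟩ := hC c t t ht le_rfl ht1
  obtain ⟨-, hrat⟩ := hC c t (tp t) ht b1 b2
  have hG := gasS hR c t hpos
  have hsup := supS hS c t (kap c t) hc1 ht ht1 (kap_pos c t ht ht1).le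
    (fun k hk => capL_low hRec hP c t hc1 ht ht1 k hk)
  have hloc := locS hL c t ht ht1 hpos
  have hcap' : 0 ≤ capVol c (t / Real.sqrt ((1 + t) / 2)) := measureReal_nonneg
  have hδ0 : 0 ≤ 2 * capVol c (t / Real.sqrt ((1 + t) / 2)) / capVol c t := by positivity
  have hX1 : Xt t ≤ X1 t := min_le_left _ _
  have hX2 : Xt t ≤ X2 t := min_le_right _ _
  have hn0 : (0 : ℝ) ≤ (c : ℝ) + 2 := by positivity
  have hκ : kap c t ≤ Real.exp (-((Xt t - ε / 4) * ((c : ℝ) + 2))) := by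
    have h1 := hd1 ((c : ℝ) + 2) (((le_max_left _ _).trans (le_max_right _ _)).trans hcN)
    have h2 : kap c t = Real.exp (2 * tau t) / (t * Real.sqrt (1 - t ^ 2)) *
        Real.exp (-(ε / 4 * ((c : ℝ) + 2))) *
        Real.exp (-((X1 t - ε / 4) * ((c : ℝ) + 2))) := by
      unfold kap
      rw [mul_assoc, ← Real.exp_add]
      congr 2
      ring
    rw [h2]
    have h3 : Real.exp (2 * tau t) / (t * Real.sqrt (1 - t ^ 2)) *
        Real.exp (-(ε / 4 * ((c : ℝ) + 2))) ≤ 1 := by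
      rw [le_div_iff₀ (Real.exp_pos _)] at h1
      rw [div_mul_eq_mul_div, div_le_one (by positivity)]
      linarith
    calc _ ≤ 1 * Real.exp (-((X1 t - ε / 4) * ((c : ℝ) + 2))) :=
          mul_le_mul_of_nonneg_right h3 (Real.exp_pos _).le
      _ ≤ _ := by
          rw [one_mul, Real.exp_le_exp]
          have := mul_le_mul_of_nonneg_right (sub_le_sub_right hX1 (ε / 4)) hn0
          linarith
  have hδ : 2 * capVol c (t / Real.sqrt ((1 + t) / 2)) / capVol c t ≤
      Real.exp (-((Xt t - ε / 4) * ((c : ℝ) + 2))) := by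
    have h1 := hd2 ((c : ℝ) + 2) (((le_max_right _ _).trans (le_max_right _ _)).trans hcN)
    rw [sqrt_ratio t ht ht1] at hrat
    have h2 : 2 * capVol c (t / Real.sqrt ((1 + t) / 2)) / capVol c t ≤
        2 * (Real.exp (-X2 t) ^ (c + 1) / (t * tp t)) := by
      rw [div_le_iff₀ hpos]
      calc 2 * capVol c (t / Real.sqrt ((1 + t) / 2)) ≤
            2 * (Real.exp (-X2 t) ^ (c + 1) / (t * tp t) * capVol c t) :=
            mul_le_mul_of_nonneg_left hrat (by norm_num)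
        _ = _ := by ring
    refine h2.trans ?_
    have h3 : 2 * (Real.exp (-X2 t) ^ (c + 1) / (t * tp t)) =
        2 * Real.exp (X2 t) / (t * tp t) * Real.exp (-(ε / 4 * ((c : ℝ) + 2))) *
        Real.exp (-((X2 t - ε / 4) * ((c : ℝ) + 2))) := by
      have e1 : Real.exp (-X2 t) ^ (c + 1) = Real.exp (X2 t) *
          (Real.exp (-(ε / 4 * ((c : ℝ) + 2))) *
            Real.exp (-((X2 t - ε / 4) * ((c : ℝ) + 2)))) := by
        rw [← Real.exp_nat_mul, ← Real.exp_add, ← Real.exp_add]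
        congr 1
        push_cast
        ring
      rw [e1]
      field_simp
    rw [h3]
    have h4 : 2 * Real.exp (X2 t) / (t * tp t) * Real.exp (-(ε / 4 * ((c : ℝ) + 2))) ≤ 1 := by
      rw [le_div_iff₀ (by positivity)] at h1
      rw [div_mul_eq_mul_div, div_le_one (by positivity)]
      linarith
    calc _ ≤ 1 * Real.exp (-((X2 t - ε / 4) * ((c : ℝ) + 2))) :=
          mul_le_mul_of_nonneg_right h4 (Real.exp_pos _).le
      _ ≤ _ := by
          rw [one_mul, Real.exp_le_exp]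
          have := mul_le_mul_of_nonneg_right (sub_le_sub_right hX2 (ε / 4)) hn0
          linarith
  obtain ⟨u1, u2⟩ := huni (S (c + 2)) (sig (c + 2)) (capF (c + 2) t) (capVol c t) (kap c t) _
    ((c : ℝ) + 2) ((le_max_left _ _).trans hcN) hG (hsm.trans (min_le_right _ _))
    (kap_pos c t ht ht1).le hsup hδ0 hloc hκ hδ
  have ePZ : ∀ lam : ℝ, PZ (sig (c + 2)) (capF (c + 2) t) lam = PC (c + 2) t lam := by
    intro lam
    unfold PZ PC
    simp only [pr_eq]
  have ePM : ∀ lam : ℝ, PM (sig (c + 2)) (capF (c + 2) t) lam = MC (c + 2) t lam := by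
    intro lam
    unfold PM MC
    simp only [pr_eq, ePZ]
  refine ⟨hpos, hsm.trans (min_le_left _ _), fun s hs hsN => ?_, fun k hk hkN => ?_⟩
  · have := u1 s hs hsN
    unfold ac at this
    rw [ePZ, ePM] at this
    exact this
  · have := u2 k hk hkN
    rw [pr_eq] at this
    exact this

end Pool.Agent.N549.SG
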