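import Pool.Agent.N549.SG.Stm

/-!
# Hard caps on the sphere: the sharp exponent (project HG, fourth round, second part)
-/

set_option autoImplicit false

namespace Pool.Agent.N549.SG

open MeasureTheory Set Finset
open scoped ENNReal NNReal
open Pool.Agent.N303.SH (E S sg)

/-- SG/BES: Bessel's inequality for the indicator of a cap -/
def S_BES : Prop := ∀ (c k : ℕ) (t : ℝ), 1 ≤ c → 0 < t → t < 1 →
  capL c t k ^ 2 * ((k + c - 1).choose k : ℝ) ≤ capVol c t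

/-- SG/LOWV: a cap is not too small -/
def S_LOWV : Prop := ∀ (c : ℕ) (t : ℝ), 0 < t → t < 1 →
  t * Real.sqrt (1 - t ^ 2) ^ (c + 1) / (2 * ((c : ℝ) + 2)) ≤ capVol c t

/-- SG/ENT: the exponent of the dimensions -/
def S_ENT : Prop := ∀ μ ε : ℝ, 0 < μ → 0 < ε → ∃ c₀ : ℕ, ∀ c : ℕ, c₀ ≤ c →
  Real.exp (((1 + μ) * Real.log (1 + μ) - μ * Real.log μ - ε) * ((c : ℝ) + 2)) ≤
    ((⌊μ * ((c : ℝ) + 2)⌋₊ + c - 1).choose ⌊μ * ((c : ℝ) + 2)⌋₊ : ℝ)

end Pool.Agent.N549.SG
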