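import Pool.Agent.N549.SG.Main
import Pool.Agent.N549.SG.Stm2
import Pool.Agent.N549.AB.Abs4

/-!
# Hard caps on the sphere: the sharp exponent (project HG, fourth round, second part)

`pos_P` is the first step of `Pool.Agent.N624.SG.pb` (helper624).
-/

set_option autoImplicit false

namespace Pool.Agent.N549.SG

open MeasureTheory Set Finset
open scoped ENNReal NNReal
open Pool.Agent.N303.SH (E S sg)
open Pool.Agent.N549.AB (Gas SupK LocK Nr pr PZ PM ac)

theorem pos_P (N x s μ : ℝ) (P : ℕ → ℝ) (hN : 1 ≤ N) (hx0 : 0 < x) (hx1 : x < 1)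
    (hs : s = Real.sqrt (1 - x ^ 2)) (hμ : μ = (1 / s - 1) / 2) (hP0 : P 0 = 1) (hP1 : P 1 = x)
    (hrec : ∀ m : ℕ, 1 ≤ m →
      ((m : ℝ) + N) * P (m + 1) = (2 * m + N) * x * P m - m * P (m - 1)) :
    ∀ m : ℕ, m ≤ ⌊N * μ⌋₊ + 1 → 0 < P m := by
  have hN0 : (0 : ℝ) < N := by linarith
  have hx2 : 0 < 1 - x ^ 2 := by nlinarith
  have hs0 : 0 < s := by rw [hs]; exact Real.sqrt_pos.mpr hx2
  have hs2 : s ^ 2 = 1 - x ^ 2 := by rw [hs]; exact Real.sq_sqrt hx2.le
  have hs1 : s < 1 := by nlinarith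
  have hμ0 : 0 < μ := by
    rw [hμ]
    have : 1 < 1 / s := by rw [lt_div_iff₀ hs0]; linarith
    linarith
  have hμs : μ * (2 * s) = 1 - s := by rw [hμ]; field_simp
  set c := (1 - s) / x with hc
  have hc0 : 0 < c := by rw [hc]; apply div_pos <;> linarith
  have hcx : c * x = 1 - s := by rw [hc]; field_simp
  have hxx : x ^ 2 = (1 - s) * (1 + s) := by nlinarith
  have hcc : c ^ 2 * (1 + s) = 1 - s := by
    have h1 : c ^ 2 * x ^ 2 = (1 - s) ^ 2 := by rw [← hcx]; ring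
    rw [hxx] at h1
    have h2 : (1 - s) * (c ^ 2 * (1 + s) - (1 - s)) = 0 := by nlinarith
    rcases mul_eq_zero.mp h2 with h | h
    · linarith
    · linarith
  have hclex : c ≤ x := by
    rw [hc, div_le_iff₀ hx0]
    nlinarith
  have e2 : (1 + s) * (c ^ 2 - 2 * (c * x) + 1) = 2 * s ^ 2 := by
    have : (1 + s) * (c ^ 2 - 2 * (c * x) + 1) =
        c ^ 2 * (1 + s) - 2 * (1 + s) * (c * x) + (1 + s) := by ring
    rw [this, hcx, hcc]; ring
  have hkey : c * (x - c) = μ * (c ^ 2 - 2 * (c * x) + 1) := by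
    have h1 : (1 + s) * (c * (x - c)) = (1 - s) * s := by
      have : (1 + s) * (c * (x - c)) = (1 + s) * (c * x) - c ^ 2 * (1 + s) := by ring
      rw [this, hcx, hcc]; ring
    have h3 : (1 + s) * (c * (x - c) - μ * (c ^ 2 - 2 * (c * x) + 1)) = 0 := by
      have : (1 + s) * (c * (x - c) - μ * (c ^ 2 - 2 * (c * x) + 1)) =
        (1 + s) * (c * (x - c)) - μ * ((1 + s) * (c ^ 2 - 2 * (c * x) + 1)) := by ring
      rw [this, h1, e2]
      have : (1 - s) * s - μ * (2 * s ^ 2) = (1 - s) * s - (μ * (2 * s)) * s := by ring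
      rw [this, hμs]; ring
    rcases mul_eq_zero.mp h3 with h | h
    · linarith
    · linarith
  have hD : 0 < c ^ 2 - 2 * (c * x) + 1 := by
    by_contra h
    push Not at h
    have : (1 + s) * (c ^ 2 - 2 * (c * x) + 1) ≤ 0 :=
      mul_nonpos_of_nonneg_of_nonpos (by linarith) h
    nlinarith
  set M := ⌊N * μ⌋₊ with hM
  have hMle : (M : ℝ) ≤ N * μ := Nat.floor_le (by positivity)
  have step1 : ∀ m : ℕ, m ≤ M → 0 < P m ∧ c * P m ≤ P (m + 1) := by
    intro m
    induction m with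
    | zero =>
      intro _
      rw [hP0]
      simp only [zero_add, hP1, mul_one]
      exact ⟨one_pos, hclex⟩
    | succ m ih =>
      intro hm
      obtain ⟨h1, h2⟩ := ih (by omega)
      have h3 : 0 < P (m + 1) := lt_of_lt_of_le (mul_pos hc0 h1) h2
      refine ⟨h3, ?_⟩
      have hr := hrec (m + 1) (by omega)
      simp only [Nat.add_sub_cancel] at hr
      have hmM : (((m + 1 : ℕ)) : ℝ) ≤ N * μ := le_trans (by exact_mod_cast hm) hMle
      set k : ℝ := ((m + 1 : ℕ) : ℝ) with hk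
      have hk0 : 0 < k := by rw [hk]; positivity
      have h4 : 0 < k + N := by linarith
      have h5 : c * (k + N) * (c * P (m + 1)) ≤ c * ((k + N) * P (m + 1 + 1)) := by
        rw [hr]
        have h6 : k * (c * P m) ≤ k * P (m + 1) := mul_le_mul_of_nonneg_left h2 hk0.le
        have h7 : k * (c ^ 2 - 2 * (c * x) + 1) ≤ N * (c * (x - c)) := by
          rw [hkey]
          calc k * (c ^ 2 - 2 * (c * x) + 1) ≤ (N * μ) * (c ^ 2 - 2 * (c * x) + 1) :=
                mul_le_mul_of_nonneg_right hmM hD.le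
            _ = _ := by ring
        have h8 := mul_le_mul_of_nonneg_right h7 h3.le
        linarith
      have h9 : (c * (k + N)) * (c * P (m + 1)) ≤ (c * (k + N)) * P (m + 1 + 1) := by
        calc (c * (k + N)) * (c * P (m + 1)) ≤ c * ((k + N) * P (m + 1 + 1)) := h5
          _ = (c * (k + N)) * P (m + 1 + 1) := by ring
      exact le_of_mul_le_mul_left h9 (by positivity)
  intro m hm
  rcases Nat.lt_or_ge m (M + 1) with h | h
  · exact (step1 m (by omega)).1
  · have : m = M + 1 := by omega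
    rw [this]
    have h1 := step1 M le_rfl
    exact lt_of_lt_of_le (mul_pos hc0 h1.1) h1.2

theorem mu0_pos (t : ℝ) (ht : 0 < t) (ht1 : t < 1) : 0 < mu0 t := by
  have hx2 : 0 < 1 - t ^ 2 := by nlinarith
  have hs0 : 0 < Real.sqrt (1 - t ^ 2) := Real.sqrt_pos.mpr hx2
  have hs2 := Real.sq_sqrt hx2.le
  have hs1 : Real.sqrt (1 - t ^ 2) < 1 := by nlinarith
  unfold mu0
  have : 1 < 1 / Real.sqrt (1 - t ^ 2) := by rw [lt_div_iff₀ hs0]; linarith
  linarith

/-- the degree up to which the eigenvalues are positive -/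
noncomputable def Mc (c : ℕ) (t : ℝ) : ℕ := ⌊mu0 t * ((c : ℝ) + 2)⌋₊

/-- the dimension -/
noncomputable def Cc (c : ℕ) (t : ℝ) : ℝ := ((Mc c t + c - 1).choose (Mc c t) : ℝ)

/-- the constant of the supersaturation -/
noncomputable def kap2 (c : ℕ) (t : ℝ) : ℝ := 1 / Real.sqrt (capVol c t * Cc c t)

theorem choose_mono (c k M : ℕ) (hc : 1 ≤ c) (h : M ≤ k) :
    (M + c - 1).choose M ≤ (k + c - 1).choose k := by
  obtain ⟨d, rfl⟩ := Nat.exists_eq_add_of_le' hc
  rw [show M + (d + 1) - 1 = d + M by omega, show k + (d + 1) - 1 = d + k by omega]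
  rw [← Nat.choose_symm_add, ← Nat.choose_symm_add]
  exact Nat.choose_le_choose d (by omega)

theorem Cc_pos (c : ℕ) (t : ℝ) (hc : 1 ≤ c) : 0 < Cc c t := by
  unfold Cc
  have : 0 < (Mc c t + c - 1).choose (Mc c t) := Nat.choose_pos (by omega)
  exact_mod_cast this

theorem capL_low2 (hr : S_REC) (hB : S_BES) (c : ℕ) (t : ℝ) (hc : 1 ≤ c) (ht : 0 < t)
    (ht1 : t < 1) (hpos : 0 < capVol c t) (k : ℕ) (hk : 1 ≤ k) :
    -(kap2 c t * capVol c t) ≤ capL c t k := by
  have hC0 := Cc_pos c t hc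
  have hκ : 0 ≤ kap2 c t * capVol c t := by unfold kap2; positivity
  rcases Nat.lt_or_ge (k - 1) (Mc c t + 1 + 1) with h | h
  · obtain ⟨m, rfl⟩ := Nat.exists_eq_add_of_le' hk
    rw [Nat.add_sub_cancel] at h
    rw [capL_eq hr c t hc ht ht1]
    have h1 := pos_P ((c : ℝ) + 2) t (Real.sqrt (1 - t ^ 2)) (mu0 t) (Pseq c t)
      (by linarith [(Nat.cast_nonneg c : (0 : ℝ) ≤ c)]) ht ht1 rfl rfl rfl rfl (Pseq_rec c t) m
      (by rw [mul_comm]; exact Nat.lt_succ_iff.1 h)
    obtain ⟨⟨h2, -⟩, -⟩ := hr c t hc ht ht1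
    have := mul_nonneg h2 h1.le
    linarith
  · have h1 := hB c k t hc ht ht1
    have h2 : Cc c t ≤ ((k + c - 1).choose k : ℝ) := by
      unfold Cc
      exact_mod_cast choose_mono c k (Mc c t) hc (by omega)
    have h3 : capL c t k ^ 2 * Cc c t ≤ capVol c t :=
      (mul_le_mul_of_nonneg_left h2 (sq_nonneg _)).trans h1
    have h4 : capL c t k ^ 2 ≤ (kap2 c t * capVol c t) ^ 2 := by
      unfold kap2
      rw [mul_pow, div_pow, Real.sq_sqrt (by positivity)]
      have e : 1 ^ 2 / (capVol c t * Cc c t) * capVol c t ^ 2 = capVol c t / Cc c t := by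
        field_simp
      rw [e, le_div_iff₀ hC0]
      exact h3
    exact (abs_le.1 (abs_le_of_sq_le_sq h4 hκ)).1

/-- Half the difference of the exponents of Kabatiansky and Levenshtein and of Wyner. -/
noncomputable def XK (t : ℝ) : ℝ :=
  ((1 + mu0 t) * Real.log (1 + mu0 t) - mu0 t * Real.log (mu0 t) +
    Real.log (Real.sqrt (1 - t ^ 2))) / 2

theorem kap2_small (hE : S_ENT) (hV : S_LOWV) (t ε : ℝ) (ht : 0 < t) (ht1 : t < 1) (hε : 0 < ε) :
    ∃ c₀ : ℕ, ∀ c : ℕ, c₀ ≤ c → kap2 c t ≤ Real.exp (-((XK t - ε) * ((c : ℝ) + 2))) := by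
  obtain ⟨c₁, hc₁⟩ := hE (mu0 t) ε (mu0_pos t ht ht1) hε
  have hx2 : 0 < 1 - t ^ 2 := by nlinarith
  have hs0 : 0 < Real.sqrt (1 - t ^ 2) := Real.sqrt_pos.mpr hx2
  have hs2 := Real.sq_sqrt hx2.le
  have hs1 : Real.sqrt (1 - t ^ 2) < 1 := by nlinarith
  obtain ⟨N₁, hN₁, hdec⟩ := Pool.Agent.N549.AB.decay 1 ε (t / 2) hε (by positivity)
  obtain ⟨c₂, hc₂⟩ := exists_nat_ge N₁
  refine ⟨max (max c₁ c₂) 1, fun c hc => ?_⟩
  have g1 : c₁ ≤ c := ((le_max_left _ _).trans (le_max_left _ _)).trans hc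
  have g2 : c₂ ≤ c := ((le_max_right _ _).trans (le_max_left _ _)).trans hc
  have g3 : 1 ≤ c := (le_max_right _ _).trans hc
  have hn : N₁ ≤ (c : ℝ) + 2 := by
    have : (c₂ : ℝ) ≤ c := by exact_mod_cast g2
    linarith
  set n : ℝ := (c : ℝ) + 2 with hnd
  have hn0 : 0 < n := by rw [hnd]; positivity
  have h1 : Real.exp (((1 + mu0 t) * Real.log (1 + mu0 t) - mu0 t * Real.log (mu0 t) - ε) * n) ≤
      Cc c t := hc₁ c g1
  have h2 : Real.exp ((Real.log (Real.sqrt (1 - t ^ 2)) - ε) * n) ≤ capVol c t := by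
    refine le_trans ?_ (hV c t ht ht1)
    have e1 : Real.exp ((Real.log (Real.sqrt (1 - t ^ 2)) - ε) * n) =
        Real.sqrt (1 - t ^ 2) ^ (c + 2) * Real.exp (-(ε * n)) := by
      rw [show (Real.log (Real.sqrt (1 - t ^ 2)) - ε) * n =
        ((c + 2 : ℕ) : ℝ) * Real.log (Real.sqrt (1 - t ^ 2)) + -(ε * n) by
          rw [hnd]; push_cast; ring]
      rw [Real.exp_add, Real.exp_nat_mul, Real.exp_log hs0]
    have h3 := hdec n hn
    rw [abs_one, one_mul] at h3
    rw [e1, le_div_iff₀ (by positivity), pow_succ]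
    have h4 : n * Real.exp (-(ε * n)) ≤ t / 2 := by
      refine le_trans ?_ h3
      exact mul_le_mul_of_nonneg_right (by linarith) (Real.exp_pos _).le
    have h5 : 0 < Real.sqrt (1 - t ^ 2) ^ (c + 1) := pow_pos hs0 _
    calc Real.sqrt (1 - t ^ 2) ^ (c + 1) * Real.sqrt (1 - t ^ 2) * Real.exp (-(ε * n)) * (2 * n)
        = Real.sqrt (1 - t ^ 2) ^ (c + 1) * (Real.sqrt (1 - t ^ 2) *
            (2 * (n * Real.exp (-(ε * n))))) := by ring
      _ ≤ Real.sqrt (1 - t ^ 2) ^ (c + 1) * t := by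
          refine mul_le_mul_of_nonneg_left ?_ h5.le
          have h6 : 0 ≤ 2 * (n * Real.exp (-(ε * n))) := by positivity
          calc Real.sqrt (1 - t ^ 2) * (2 * (n * Real.exp (-(ε * n)))) ≤
                1 * (2 * (n * Real.exp (-(ε * n)))) := mul_le_mul_of_nonneg_right hs1.le h6
            _ ≤ t := by linarith
      _ = _ := by ring
  have hC0 := Cc_pos c t g3
  have hpos : 0 < capVol c t := lt_of_lt_of_le (Real.exp_pos _) h2
  have h3 : Real.exp ((XK t - ε) * n) ^ 2 ≤ capVol c t * Cc c t := by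
    calc Real.exp ((XK t - ε) * n) ^ 2 =
          Real.exp ((Real.log (Real.sqrt (1 - t ^ 2)) - ε) * n) *
          Real.exp (((1 + mu0 t) * Real.log (1 + mu0 t) - mu0 t * Real.log (mu0 t) - ε) * n) := by
          rw [← Real.exp_nat_mul, ← Real.exp_add]
          congr 1
          unfold XK
          push_cast
          ring
      _ ≤ _ := mul_le_mul h2 h1 (Real.exp_pos _).le hpos.le
  unfold kap2
  rw [Real.exp_neg, one_div]
  refine inv_anti₀ (Real.exp_pos _) ?_
  exact Real.le_sqrt_of_sq_le h3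

/-- The size of the window. -/
noncomputable def XS (t : ℝ) : ℝ := min (XK t) (X2 t)

end Pool.Agent.N549.SG
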