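import Pool.Agent.N549.SG.Main2
import Pool.Agent.N549.AB.Abs5

/-!
# Hard caps on the sphere: exponentially small errors (project HG, fourth round, second part)
-/

set_option autoImplicit false

namespace Pool.Agent.N549.SG

open MeasureTheory Set Finset
open scoped ENNReal NNReal
open Pool.Agent.N303.SH (E S sg)
open Pool.Agent.N549.AB (Gas SupK LocK Nr pr PZ PM ac)

/-- the volume of a cap is exponentially small -/
theorem capVol_exp (hC : S_CAPR) (hR : S_ROT) (t : ℝ) (ht : 0 < t) (ht1 : t < 1) :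
    ∃ (b : ℝ) (c₀ : ℕ), 0 < b ∧ ∀ c : ℕ, c₀ ≤ c →
      capVol c t ≤ Real.exp (-(b * ((c : ℝ) + 2))) := by
  set r : ℝ := Real.sqrt ((1 - t ^ 2) / (1 - (t / 2) ^ 2)) with hr
  have hr0 : 0 < r := by
    rw [hr]
    refine Real.sqrt_pos.2 (div_pos (by nlinarith) (by nlinarith))
  have hr1 : r < 1 := by
    rw [hr, Real.sqrt_lt' one_pos, one_pow, div_lt_one (by nlinarith)]
    nlinarith
  have hl : Real.log r < 0 := Real.log_neg hr0 hr1
  set b : ℝ := -Real.log r / 2 with hb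
  have hb0 : 0 < b := by rw [hb]; linarith
  obtain ⟨N₀, hN₀, hd⟩ := Pool.Agent.N549.AB.decay 0 b (t / 2 * t / Real.exp (2 * b)) hb0
    (by positivity)
  simp only [abs_zero, zero_mul, add_zero, one_mul] at hd
  obtain ⟨c₀, hc₀⟩ := exists_nat_ge N₀
  refine ⟨b, c₀, hb0, fun c hc => ?_⟩
  have hprob : IsProbabilityMeasure (sig (c + 2)) := (hR c).2.1
  obtain ⟨h1, h2⟩ := hC c (t / 2) t (by linarith) (by linarith) ht1
  have h3 : capVol c (t / 2) ≤ 1 := measureReal_le_one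
  have hn : N₀ ≤ (c : ℝ) + 2 := by
    have : (c₀ : ℝ) ≤ c := by exact_mod_cast hc
    linarith
  have h4 := hd _ hn
  rw [le_div_iff₀ (Real.exp_pos _)] at h4
  have e1 : r ^ (c + 1) = Real.exp (-(b * ((c : ℝ) + 2))) * Real.exp (2 * b) *
      Real.exp (-(b * ((c : ℝ) + 2))) := by
    rw [← Real.exp_add, ← Real.exp_add]
    have : r = Real.exp (-(2 * b)) := by
      rw [hb, show -(2 * (-Real.log r / 2)) = Real.log r by ring, Real.exp_log hr0]
    rw [this, ← Real.exp_nat_mul]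
    congr 1
    push_cast
    ring
  calc capVol c t ≤ r ^ (c + 1) / (t / 2 * t) * capVol c (t / 2) := h2
    _ ≤ r ^ (c + 1) / (t / 2 * t) * 1 := mul_le_mul_of_nonneg_left h3 (by positivity)
    _ ≤ Real.exp (-(b * ((c : ℝ) + 2))) := by
        rw [mul_one, div_le_iff₀ (by positivity), e1]
        have := mul_le_mul_of_nonneg_right h4 (Real.exp_pos (-(b * ((c : ℝ) + 2)))).le
        linarith

theorem main3 (hS : S_SPEC) (hRec : S_REC) (hC : S_CAPR) (hL : S_LOCS) (hR : S_ROT)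
    (hB : S_BES) (hV : S_LOWV) (hE : S_ENT) (hX : Pool.Agent.N549.AB.S_CANX)
    (t ε : ℝ) (ht : 0 < t) (ht1 : t < 1) (hε : 0 < ε) : ∃ (a C : ℝ) (c₀ : ℕ), 0 < a ∧ 0 < C ∧
    ∀ c : ℕ, c₀ ≤ c →
    0 < capVol c t ∧
    (∀ s : ℝ, 0 < s → s ≤ (XS t - ε) * ((c : ℝ) + 2) →
      |capVol c t * MC (c + 2) t (s * Real.exp s / capVol c t) - s| ≤
        Real.exp (-(a * ((c : ℝ) + 2))) * s ∧
      |capVol c t * Real.log (PC (c + 2) t (s * Real.exp s / capVol c t)) - (s + s ^ 2 / 2)| ≤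
        Real.exp (-(a * ((c : ℝ) + 2))) * s) ∧
    (∀ k : ℕ, Real.exp (-(a * ((c : ℝ) + 2))) ≤ k * capVol c t →
      k * capVol c t ≤ (XS t - ε) * ((c : ℝ) + 2) →
      0 < pc (c + 2) t k ∧
      |Real.log (pc (c + 2) t k) + k ^ 2 * capVol c t / 2| ≤
        Real.exp (-(a * ((c : ℝ) + 2))) * (k ^ 2 * capVol c t)) ∧
    ∀ k : ℕ, C * ((c : ℝ) + 2) ≤ k * capVol c t →
      pc (c + 2) t k ≤ Real.exp (-((XK t - ε) * ((c : ℝ) + 2) * k)) := by
  obtain ⟨b, c₁, hb, hc₁⟩ := capVol_exp hC hR t ht ht1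
  obtain ⟨a, N₀, ha, huni⟩ := Pool.Agent.N549.AB.uniform_exp hX (XS t) ε b hε hb
  obtain ⟨C, N₁, hC0, hlarge⟩ := Pool.Agent.N549.AB.large (XK t) ε hε
  obtain ⟨b1, b2, b3⟩ := tp_bounds t ht ht1
  have hsq : 0 < Real.sqrt (1 - t ^ 2) := Real.sqrt_pos.2 (by nlinarith)
  obtain ⟨c₃, hc₃⟩ := kap2_small hE hV t (ε / 4) ht ht1 (by positivity)
  obtain ⟨N₂, hN₂, hd2⟩ := Pool.Agent.N549.AB.decay 0 (ε / 4)
    (t * tp t / (2 * Real.exp (X2 t))) (by positivity) (by positivity)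
  simp only [abs_zero, zero_mul, add_zero, one_mul] at hd2
  obtain ⟨c₂, hc₂⟩ := exists_nat_ge (max N₀ (max N₁ N₂))
  refine ⟨a, C, max (max c₁ c₂) (max c₃ 1), ha, hC0, fun c hc => ?_⟩
  have hcc₁ : c₁ ≤ c := ((le_max_left _ _).trans (le_max_left _ _)).trans hc
  have hcc₂ : c₂ ≤ c := ((le_max_right _ _).trans (le_max_left _ _)).trans hc
  have hcc₃ : c₃ ≤ c := ((le_max_left _ _).trans (le_max_right _ _)).trans hc
  have hc1 : 1 ≤ c := ((le_max_right _ _).trans (le_max_right _ _)).trans hc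
  have hcN : max N₀ (max N₁ N₂) ≤ (c : ℝ) + 2 := by
    have : (c₂ : ℝ) ≤ c := by exact_mod_cast hcc₂
    linarith
  have hprob : IsProbabilityMeasure (sig (c + 2)) := (hR c).2.1
  have hsm := hc₁ c hcc₁
  obtain ⟨hpos, -⟩ := hC c t t ht le_rfl ht1
  obtain ⟨-, hrat⟩ := hC c t (tp t) ht b1 b2
  have hG := gasS hR c t hpos
  have hκ0 : 0 ≤ kap2 c t := by
    have := Cc_pos c t hc1
    unfold kap2; positivity
  have hsup := supS hS c t (kap2 c t) hc1 ht ht1 hκ0
    (fun k hk => capL_low2 hRec hB c t hc1 ht ht1 hpos k hk)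
  have hloc := locS hL c t ht ht1 hpos
  have hcap' : 0 ≤ capVol c (t / Real.sqrt ((1 + t) / 2)) := measureReal_nonneg
  have hδ0 : 0 ≤ 2 * capVol c (t / Real.sqrt ((1 + t) / 2)) / capVol c t := by positivity
  have hX1 : XS t ≤ XK t := min_le_left _ _
  have hX2 : XS t ≤ X2 t := min_le_right _ _
  have hn0 : (0 : ℝ) ≤ (c : ℝ) + 2 := by positivity
  have hκK : kap2 c t ≤ Real.exp (-((XK t - ε / 4) * ((c : ℝ) + 2))) := hc₃ c hcc₃
  have hκ : kap2 c t ≤ Real.exp (-((XS t - ε / 4) * ((c : ℝ) + 2))) := by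
    refine hκK.trans ?_
    rw [Real.exp_le_exp]
    have := mul_le_mul_of_nonneg_right (sub_le_sub_right hX1 (ε / 4)) hn0
    linarith
  have hδ : 2 * capVol c (t / Real.sqrt ((1 + t) / 2)) / capVol c t ≤
      Real.exp (-((XS t - ε / 4) * ((c : ℝ) + 2))) := by
    have h1 := hd2 ((c : ℝ) + 2) (((le_max_right _ _).trans (le_max_right _ _)).trans hcN)
    rw [sqrt_ratio t ht ht1] at hrat
    have h2 : 2 * capVol c (t / Real.sqrt ((1 + t) / 2)) / capVol c t ≤
        2 * (Real.exp (-X2 t) ^ (c + 1) / (t * tp t)) := by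
      rw [div_le_iff₀ hpos]
      calc 2 * capVol c (t / Real.sqrt ((1 + t) / 2)) ≤
            2 * (Real.exp (-X2 t) ^ (c + 1) / (t * tp t) * capVol c t) :=
            mul_le_mul_of_nonneg_left hrat (by norm_num)
        _ = _ := by ring
    refine h2.trans ?_
    have h3 : 2 * (Real.exp (-X2 t) ^ (c + 1) / (t * tp t)) =
        2 * Real.exp (X2 t) / (t * tp t) * Real.exp (-(ε / 4 * ((c : ℝ) + 2))) *
        Real.exp (-((X2 t - ε / 4) * ((c : ℝ) + 2))) := by
      have e1 : Real.exp (-X2 t) ^ (c + 1) = Real.exp (X2 t) *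
          (Real.exp (-(ε / 4 * ((c : ℝ) + 2))) *
            Real.exp (-((X2 t - ε / 4) * ((c : ℝ) + 2)))) := by
        rw [← Real.exp_nat_mul, ← Real.exp_add, ← Real.exp_add]
        congr 1
        push_cast
        ring
      rw [e1]
      field_simp
    rw [h3]
    have h4 : 2 * Real.exp (X2 t) / (t * tp t) * Real.exp (-(ε / 4 * ((c : ℝ) + 2))) ≤ 1 := by
      rw [le_div_iff₀ (by positivity)] at h1
      rw [div_mul_eq_mul_div, div_le_one (by positivity)]
      linarith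
    calc _ ≤ 1 * Real.exp (-((X2 t - ε / 4) * ((c : ℝ) + 2))) :=
          mul_le_mul_of_nonneg_right h4 (Real.exp_pos _).le
      _ ≤ _ := by
          rw [one_mul, Real.exp_le_exp]
          have := mul_le_mul_of_nonneg_right (sub_le_sub_right hX2 (ε / 4)) hn0
          linarith
  obtain ⟨u1, u2⟩ := huni (S (c + 2)) (sig (c + 2)) (capF (c + 2) t) (capVol c t) (kap2 c t) _
    ((c : ℝ) + 2) ((le_max_left _ _).trans hcN) hG hsm hκ0 hsup hδ0 hloc hκ hδ
  have u3 := hlarge (S (c + 2)) (sig (c + 2)) (capF (c + 2) t) (capVol c t) (kap2 c t)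
    ((c : ℝ) + 2) (((le_max_left _ _).trans (le_max_right _ _)).trans hcN) hG
    (hsm.trans (Real.exp_le_one_iff.2 (by
      have : 0 ≤ b * ((c : ℝ) + 2) := by positivity
      linarith))) hκ0 hsup hκK
  have ePZ : ∀ lam : ℝ, PZ (sig (c + 2)) (capF (c + 2) t) lam = PC (c + 2) t lam := by
    intro lam
    unfold PZ PC
    simp only [pr_eq]
  have ePM : ∀ lam : ℝ, PM (sig (c + 2)) (capF (c + 2) t) lam = MC (c + 2) t lam := by
    intro lam
    unfold PM MC
    simp only [pr_eq, ePZ]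
  refine ⟨hpos, fun s hs hsN => ?_, fun k hk hkN => ?_, fun k hk => ?_⟩
  · have := u1 s hs hsN
    unfold ac at this
    rw [ePZ, ePM] at this
    exact this
  · have := u2 k hk hkN
    rw [pr_eq] at this
    exact this
  · have := u3 k hk
    rw [pr_eq] at this
    exact this

end Pool.Agent.N549.SG
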